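import Pool.Agent.W207.SW.SpecE

/-! Project SW, part FFE: the entire function, even version. -/

set_option autoImplicit false

open Complex Filter Topology Set MeasureTheory
open scoped BigOperators

namespace W333.SW

open W207.SW
open W207.PR (ct)

theorem norm_cos_le (w : ℂ) : ‖Complex.cos w‖ ≤ Real.exp |w.im| := by
  have h1 : ‖Complex.exp (w * I)‖ = Real.exp (-w.im) := by rw [Complex.norm_exp]; simp
  have h2 : ‖Complex.exp (-w * I)‖ = Real.exp (w.im) := by rw [Complex.norm_exp]; simp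
  have h3 : Real.exp (-w.im) ≤ Real.exp |w.im| := Real.exp_le_exp.2 (neg_le_abs _)
  have h4 : Real.exp (w.im) ≤ Real.exp |w.im| := Real.exp_le_exp.2 (le_abs_self _)
  rw [Complex.cos, norm_div, Complex.norm_ofNat]
  have h5 := norm_add_le (Complex.exp (w * I)) (Complex.exp (-w * I))
  rw [h1, h2] at h5
  linarith

theorem norm_sin_le (w : ℂ) : ‖Complex.sin w‖ ≤ Real.exp |w.im| := by
  have h1 : ‖Complex.exp (w * I)‖ = Real.exp (-w.im) := by rw [Complex.norm_exp]; simp
  have h2 : ‖Complex.exp (-w * I)‖ = Real.exp (w.im) := by rw [Complex.norm_exp]; simp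
  have h3 : Real.exp (-w.im) ≤ Real.exp |w.im| := Real.exp_le_exp.2 (neg_le_abs _)
  have h4 : Real.exp (w.im) ≤ Real.exp |w.im| := Real.exp_le_exp.2 (le_abs_self _)
  rw [Complex.sin, norm_div, norm_mul, Complex.norm_ofNat, Complex.norm_I, mul_one]
  have h5 := norm_sub_le (Complex.exp (-w * I)) (Complex.exp (w * I))
  rw [h1, h2] at h5
  linarith

theorem im_arg (z : ℂ) (u : ℝ) : (2 * Real.pi * z * u : ℂ).im = 2 * Real.pi * u * z.im := by
  have : (2 * Real.pi * z * u : ℂ) = ((2 * Real.pi * u : ℝ) : ℂ) * z := by push_cast; ring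
  rw [this, Complex.im_ofReal_mul]

theorem bdd {E : ℝ → ℝ} {C0 R : ℝ} (hE : Gr E C0) (hC : 0 < C0) :
    ∀ᵐ u ∂(volume.restrict (Ioc 0 R)), u ∈ Ioc 0 R ∧ |E u| ≤ C0 * (1 + R) := by
  have h1 := ae_restrict_of_ae_restrict_of_subset (Ioc_subset_Ioi_self : Ioc 0 R ⊆ Ioi (0 : ℝ)) hE.2
  filter_upwards [h1, ae_restrict_mem measurableSet_Ioc] with u hu hm
  refine ⟨hm, hu.trans ?_⟩
  exact mul_le_mul_of_nonneg_left (by linarith [hm.2]) hC.le

theorem integrable_E {E : ℝ → ℝ} {C0 R : ℝ} (hE : Gr E C0) (hC : 0 < C0) :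
    Integrable E (volume.restrict (Ioc 0 R)) := by
  apply Integrable.of_bound hE.1.aestronglyMeasurable (C0 * (1 + R))
  filter_upwards [bdd hE hC] with u hu
  exact hu.2

theorem aux_diff {E : ℝ → ℝ} {C0 R : ℝ} (hE : Gr E C0) (hC : 0 < C0) (hR : 1 ≤ R) :
    Differentiable ℂ (fe E R) := by
  have hfe : fe E R = fun z => ∫ u in Ioc 0 R, ((E u : ℝ) : ℂ) *
      Complex.cos (2 * Real.pi * z * u) := by
    funext z
    unfold fe
    rw [intervalIntegral.integral_of_le (by linarith)]
  rw [hfe]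
  intro z0
  have hmE : Measurable fun u => ((E u : ℝ) : ℂ) := Complex.measurable_ofReal.comp hE.1
  have hm : ∀ z : ℂ, AEStronglyMeasurable (fun u : ℝ => ((E u : ℝ) : ℂ) *
      Complex.cos (2 * Real.pi * z * u)) (volume.restrict (Ioc 0 R)) := by
    intro z
    apply AEStronglyMeasurable.mul hmE.aestronglyMeasurable
    apply Continuous.aestronglyMeasurable
    fun_prop
  have hm' : AEStronglyMeasurable (fun u : ℝ => ((E u : ℝ) : ℂ) *
      (-Complex.sin (2 * Real.pi * z0 * u) * (2 * Real.pi * u))) (volume.restrict (Ioc 0 R)) := by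
    apply AEStronglyMeasurable.mul hmE.aestronglyMeasurable
    apply Continuous.aestronglyMeasurable
    fun_prop
  have key := hasDerivAt_integral_of_dominated_loc_of_deriv_le (𝕜 := ℂ)
    (μ := volume.restrict (Ioc 0 R)) (x₀ := z0)
    (F := fun (z : ℂ) (u : ℝ) => ((E u : ℝ) : ℂ) * Complex.cos (2 * Real.pi * z * u))
    (F' := fun (z : ℂ) (u : ℝ) => ((E u : ℝ) : ℂ) *
      (-Complex.sin (2 * Real.pi * z * u) * (2 * Real.pi * u)))
    (bound := fun _ => C0 * (1 + R) * (Real.exp (2 * Real.pi * R * (|z0.im| + 1)) *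
      (2 * Real.pi * R)))
    (Metric.ball_mem_nhds z0 one_pos) (Eventually.of_forall hm) ?_ hm' ?_
    (integrable_const _) ?_
  · exact key.2.differentiableAt
  · apply Integrable.of_bound (hm z0) (C0 * (1 + R) * Real.exp (2 * Real.pi * R * |z0.im|))
    filter_upwards [bdd hE hC] with u hu
    rw [norm_mul, Complex.norm_real, Real.norm_eq_abs]
    apply mul_le_mul hu.2 _ (norm_nonneg _) (by positivity)
    refine (norm_cos_le _).trans (Real.exp_le_exp.2 ?_)
    rw [im_arg, abs_mul, abs_of_pos (by have := hu.1.1; positivity)]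
    gcongr
    exact hu.1.2
  · filter_upwards [bdd hE hC] with u hu z hz
    have hu0 := hu.1.1
    rw [norm_mul, Complex.norm_real, Real.norm_eq_abs]
    apply mul_le_mul hu.2 _ (norm_nonneg _) (by positivity)
    rw [norm_mul, norm_neg]
    apply mul_le_mul _ _ (norm_nonneg _) (Real.exp_pos _).le
    · refine (norm_sin_le _).trans (Real.exp_le_exp.2 ?_)
      rw [im_arg, abs_mul, abs_of_pos (by positivity)]
      have h1 : |z.im| ≤ |z0.im| + 1 := by
        rw [Metric.mem_ball, Complex.dist_eq] at hz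
        have h2 := (Complex.abs_im_le_norm (z - z0)).trans hz.le
        rw [Complex.sub_im] at h2
        have h3 := abs_sub_abs_le_abs_sub z.im z0.im
        linarith
      gcongr
      exact hu.1.2
    · have h1 : (2 * Real.pi * u : ℂ) = ((2 * Real.pi * u : ℝ) : ℂ) := by push_cast; ring
      rw [h1, Complex.norm_real, Real.norm_eq_abs, abs_of_pos (by positivity)]
      gcongr
      exact hu.1.2
  · filter_upwards with u z _
    have h1 : HasDerivAt (fun z : ℂ => (2 * Real.pi * z * u : ℂ)) (2 * Real.pi * u) z := by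
      have := ((hasDerivAt_id z).const_mul (2 * Real.pi : ℂ)).mul_const (u : ℂ)
      simpa using! this
    have h2 := (Complex.hasDerivAt_cos (2 * Real.pi * z * u)).comp z h1
    exact h2.const_mul _

theorem aux_bound {E : ℝ → ℝ} {C0 R : ℝ} (hE : Gr E C0) (hC : 0 < C0) (hR : 1 ≤ R) (z : ℂ) :
    ‖fe E R z‖ ≤ C0 * (1 + R) ^ 2 * (1 + ‖z‖) * Real.exp (2 * Real.pi * R * |z.im|) := by
  unfold fe
  rw [intervalIntegral.integral_of_le (by linarith)]
  have h1 : ‖∫ u in Ioc 0 R, ((E u : ℝ) : ℂ) * Complex.cos (2 * Real.pi * z * u)‖ ≤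
      C0 * (1 + R) * Real.exp (2 * Real.pi * R * |z.im|) * (volume (Ioc 0 R)).toReal := by
    apply norm_setIntegral_le_of_norm_le_const_ae' (by simp)
    have h2 := bdd (R := R) hE hC
    rw [ae_restrict_iff' measurableSet_Ioc] at h2
    filter_upwards [h2] with u hu hm
    have hu' := hu hm
    have hu0 := hm.1
    rw [norm_mul, Complex.norm_real, Real.norm_eq_abs]
    apply mul_le_mul hu'.2 _ (norm_nonneg _) (by positivity)
    refine (norm_cos_le _).trans (Real.exp_le_exp.2 ?_)
    rw [im_arg, abs_mul, abs_of_pos (by positivity)]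
    gcongr
    exact hm.2
  refine h1.trans ?_
  rw [Real.volume_Ioc, ENNReal.toReal_ofReal (by linarith), sub_zero]
  have h3 : 0 < Real.exp (2 * Real.pi * R * |z.im|) := Real.exp_pos _
  have h4 : C0 * (1 + R) * R ≤ C0 * (1 + R) ^ 2 * (1 + ‖z‖) := by
    have h5 : R ≤ (1 + R) * (1 + ‖z‖) := by nlinarith [norm_nonneg z]
    calc C0 * (1 + R) * R ≤ C0 * (1 + R) * ((1 + R) * (1 + ‖z‖)) := by gcongr
      _ = _ := by ring
  calc C0 * (1 + R) * Real.exp (2 * Real.pi * R * |z.im|) * R =
      (C0 * (1 + R) * R) * Real.exp (2 * Real.pi * R * |z.im|) := by ring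
    _ ≤ _ := mul_le_mul_of_nonneg_right h4 h3.le

theorem aux_real (E : ℝ → ℝ) (R x : ℝ) : fe E R x = (ffe E R x : ℂ) := by
  unfold fe ffe
  rw [← intervalIntegral.integral_ofReal]
  apply intervalIntegral.integral_congr
  intro u _
  simp only
  push_cast
  ring_nf

theorem aux_fub {E : ℝ → ℝ} {C0 R : ℝ} (hE : Gr E C0) (hC : 0 < C0) (hR : 1 ≤ R) {ψ : ℝ → ℝ}
    {Λ : ℝ} (hψ : TstL Λ ψ) :
    ∫ u in (0 : ℝ)..R, ct ψ u * E u = ∫ ξ : ℝ, ψ ξ * ffe E R ξ := by
  have hψc : Continuous ψ := (hψ.smooth 0).continuous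
  have hψi : Integrable ψ := by
    obtain ⟨μ, _, _, h3⟩ := hψ.supp
    apply hψc.integrable_of_hasCompactSupport
    apply HasCompactSupport.intro (isCompact_Icc (a := -μ) (b := μ))
    intro x hx
    apply h3
    rw [mem_Icc, not_and_or, not_le, not_le] at hx
    rcases hx with hx | hx
    · rw [le_abs]; right; linarith
    · rw [le_abs]; left; linarith
  unfold ct ffe
  simp_rw [intervalIntegral.integral_of_le (show (0 : ℝ) ≤ R by linarith)]
  have h1 : ∀ u : ℝ, (∫ α : ℝ, ψ α * Real.cos (2 * Real.pi * α * u)) * E u =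
      ∫ α : ℝ, ψ α * Real.cos (2 * Real.pi * α * u) * E u := by
    intro u
    rw [integral_mul_const]
  have h2 : ∀ ξ : ℝ, ψ ξ * (∫ u in Ioc 0 R, E u * Real.cos (2 * Real.pi * ξ * u)) =
      ∫ u in Ioc 0 R, ψ ξ * Real.cos (2 * Real.pi * ξ * u) * E u := by
    intro ξ
    rw [← integral_const_mul]
    apply integral_congr_ae
    filter_upwards with u
    ring
  simp_rw [h1, h2]
  apply integral_integral_swap
  have h3 : Integrable (fun p : ℝ × ℝ => E p.1 * ψ p.2)
      ((volume.restrict (Ioc 0 R)).prod volume) := (integrable_E hE hC).mul_prod hψi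
  have h4 : Integrable (fun p : ℝ × ℝ => Real.cos (2 * Real.pi * p.2 * p.1) * (E p.1 * ψ p.2))
      ((volume.restrict (Ioc 0 R)).prod volume) := by
    apply h3.bdd_mul (c := 1)
    · apply Continuous.aestronglyMeasurable
      fun_prop
    · filter_upwards with p
      rw [Real.norm_eq_abs]
      exact Real.abs_cos_le_one _
  refine h4.congr ?_
  filter_upwards with p
  simp only [Function.uncurry]
  ring

theorem ffe : S_FFE := by
  intro C0 hC
  refine ⟨C0, hC, fun E R hE hR => ⟨aux_diff hE hC hR, aux_bound hE hC hR,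
    fun x => aux_real E R x, fun ψ Λ hψ => aux_fub hE hC hR hψ⟩⟩

end W333.SW
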