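import Pool.Agent.W207.SW.SpecS

/-! Project SW, part KG: the smooth cut-off. -/

set_option autoImplicit false

open Complex Filter Topology Set MeasureTheory
open scoped BigOperators

namespace W333.SW

open W207.SW

/-- the tail of `b` -/
theorem tail_le {b : ℝ → ℝ} (hi : Integrable b) {K E D T : ℝ} (hD : 0 < D)
    (hT : D ≤ T) (hb : ∀ u, D ≤ |u| → b u ≤ K * E * (D / |u|) ^ 4) :
    ∫ t in Ioi T, b t ≤ K * E * (D ^ 4 / (3 * T ^ 3)) := by
  have hT0 : 0 < T := lt_of_lt_of_le hD hT
  have h1 : IntegrableOn (fun t : ℝ => t ^ (-4 : ℝ)) (Ioi T) :=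
    integrableOn_Ioi_rpow_of_lt (by norm_num) hT0
  have h2 : ∫ t in Ioi T, t ^ (-4 : ℝ) = 1 / (3 * T ^ 3) := by
    rw [integral_Ioi_rpow_of_lt (by norm_num) hT0]
    have h3 : T ^ ((-4 : ℝ) + 1) = (T ^ 3)⁻¹ := by
      rw [show (-4 : ℝ) + 1 = -((3 : ℕ) : ℝ) by norm_num, Real.rpow_neg hT0.le, Real.rpow_natCast]
    rw [h3]
    field_simp
    norm_num
  calc ∫ t in Ioi T, b t ≤ ∫ t in Ioi T, K * E * D ^ 4 * t ^ (-4 : ℝ) := by
        apply setIntegral_mono_on hi.integrableOn (h1.const_mul _) measurableSet_Ioi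
        intro t ht
        have ht0 : 0 < t := lt_trans hT0 ht
        have h3 := hb t (by rw [abs_of_pos ht0]; exact hT.trans (le_of_lt ht))
        refine h3.trans (le_of_eq ?_)
        rw [abs_of_pos ht0, div_pow, show (-4 : ℝ) = -((4 : ℕ) : ℝ) by norm_num,
          Real.rpow_neg ht0.le, Real.rpow_natCast]
        ring
    _ = K * E * (D ^ 4 / (3 * T ^ 3)) := by
        rw [integral_const_mul, h2]
        ring

theorem g_eq (b : ℝ → ℝ) (hc : Continuous b) (ρ u : ℝ) :
    ∫ s in (0 : ℝ)..ρ, (b (u - s) + b (u + s)) = ∫ t in (u - ρ)..(u + ρ), b t := by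
  have c1 : Continuous fun s => b (u - s) := hc.comp (continuous_const.sub continuous_id)
  have c2 : Continuous fun s => b (u + s) := hc.comp (continuous_const.add continuous_id)
  rw [intervalIntegral.integral_add (c1.intervalIntegrable _ _) (c2.intervalIntegrable _ _)]
  rw [intervalIntegral.integral_comp_sub_left (fun t => b t) u,
    intervalIntegral.integral_comp_add_left (fun t => b t) u, sub_zero, add_zero]
  exact intervalIntegral.integral_add_adjacent_intervals (hc.intervalIntegrable _ _)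
    (hc.intervalIntegrable _ _)

theorem g_deriv (b : ℝ → ℝ) (hc : Continuous b) (ρ u : ℝ) :
    HasDerivAt (fun u => ∫ t in (u - ρ)..(u + ρ), b t) (b (u + ρ) - b (u - ρ)) u := by
  have h0 : ∀ x : ℝ, HasDerivAt (fun y => ∫ t in (0 : ℝ)..y, b t) (b x) x := fun x =>
    intervalIntegral.integral_hasDerivAt_right (hc.intervalIntegrable _ _)
      (hc.stronglyMeasurableAtFilter _ _) hc.continuousAt
  have h1 : (fun u => ∫ t in (u - ρ)..(u + ρ), b t) =
      fun u => (∫ t in (0 : ℝ)..(u + ρ), b t) - ∫ t in (0 : ℝ)..(u - ρ), b t := by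
    funext u
    rw [intervalIntegral.integral_interval_sub_left (hc.intervalIntegrable _ _)
      (hc.intervalIntegrable _ _)]
  rw [h1]
  have h2 : HasDerivAt (fun u => ∫ t in (0 : ℝ)..(u + ρ), b t) (b (u + ρ)) u := by
    have := (h0 (u + ρ)).comp u ((hasDerivAt_id u).add_const ρ)
    simpa using! this
  have h3 : HasDerivAt (fun u => ∫ t in (0 : ℝ)..(u - ρ), b t) (b (u - ρ)) u := by
    have := (h0 (u - ρ)).comp u ((hasDerivAt_id u).sub_const ρ)
    simpa using! this
  exact h2.sub h3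

theorem abs_sub_le' {x y B : ℝ} (hx0 : 0 ≤ x) (hy0 : 0 ≤ y) (hx : x ≤ B) (hy : y ≤ B) :
    |x - y| ≤ B := by
  rw [abs_le]
  constructor <;> linarith

theorem kg (hBLI : S_BLI) (hKB : S_KB) : S_KG := by
  intro Λ δ hΛ hδ
  obtain ⟨Kb, hKb, hb⟩ := hKB Λ hΛ
  set c : ℝ := δ / (4 * (1 + δ)) with hc
  have hc0 : 0 < c := by positivity
  set K : ℝ := Kb + 1 + Kb * δ / 3 + Kb * (δ / 2) ^ 4 / (3 * c ^ 3) + Kb * (δ / 2) ^ 3 / c ^ 3
    with hK
  have t1 : 0 ≤ Kb * δ / 3 := by positivity
  have t2 : 0 ≤ Kb * (δ / 2) ^ 4 / (3 * c ^ 3) := by positivity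
  have t3 : 0 ≤ Kb * (δ / 2) ^ 3 / c ^ 3 := by positivity
  have hK0 : 0 < K := by linarith
  refine ⟨K, δ / 8, hK0, by positivity, ?_⟩
  intro η R hη hηΛ hR hηR
  have hR0 : 0 < R := by linarith
  set D : ℝ := δ * R / 2 with hD
  have hD0 : 0 < D := by positivity
  have hηD : 8 ≤ η * D := by
    rw [hD]; linarith
  obtain ⟨b, bc, be, bb, bi, b1, bBL, bt⟩ := hb η D hη hηΛ hηD
  set ρ : ℝ := (1 + δ / 2) * R with hρ
  have hρ0 : 0 < ρ := by positivity
  set E : ℝ := Real.exp (-(δ / 8 * η * R)) with hE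
  have hE0 : 0 < E := Real.exp_pos _
  have hEE : Real.exp (-(η * D / 4)) = E := by
    rw [hE, hD]; congr 1; ring
  rw [hEE] at bt
  set g : ℝ → ℝ := fun u => ∫ t in (u - ρ)..(u + ρ), b t with hg
  set g' : ℝ → ℝ := fun u => b (u + ρ) - b (u - ρ) with hg'
  have g0 : ∀ u, 0 ≤ g u := fun u =>
    intervalIntegral.integral_nonneg (by linarith) fun t _ => (bb t).1
  have g1 : ∀ u, g u ≤ 1 := by
    intro u
    rw [hg]
    simp only
    rw [intervalIntegral.integral_of_le (by linarith), ← b1]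
    exact setIntegral_le_integral bi (Eventually.of_forall fun t => (bb t).1)
  have g'1 : ∀ u, |g' u| ≤ Kb := fun u =>
    abs_sub_le' (bb _).1 (bb _).1 (bb _).2 (bb _).2
  -- the two tails
  have htail : ∀ T, D ≤ T → ∫ t in Ioi T, b t ≤ Kb * E * (D ^ 4 / (3 * T ^ 3)) := fun T hT =>
    tail_le bi hD0 hT bt
  have htail' : ∀ T, D ≤ T → ∫ t in Iic (-T), b t ≤ Kb * E * (D ^ 4 / (3 * T ^ 3)) := by
    intro T hT
    have h1 := integral_comp_neg_Iic (-T) b
    rw [neg_neg] at h1
    simp_rw [be] at h1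
    rw [h1]
    exact htail T hT
  have hpow : ∀ T, D ≤ T → D ^ 4 / (3 * T ^ 3) ≤ D / 3 := by
    intro T hT
    have hT0 : 0 < T := lt_of_lt_of_le hD0 hT
    rw [div_le_div_iff₀ (by positivity) (by norm_num)]
    have : D ^ 3 ≤ T ^ 3 := pow_le_pow_left₀ hD0.le hT 3
    nlinarith
  have hbt1 : ∀ u, D ≤ |u| → b u ≤ Kb * E := by
    intro u hu
    refine (bt u hu).trans ?_
    have h1 : D / |u| ≤ 1 := by
      rw [div_le_one (lt_of_lt_of_le hD0 hu)]
      exact hu
    have h2 : (D / |u|) ^ 4 ≤ 1 := pow_le_one₀ (by positivity) h1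
    have h3 : 0 ≤ Kb * E := by positivity
    nlinarith
  have gsplit : ∀ u, (∫ t in Iic (u - ρ), b t) + g u + ∫ t in Ioi (u + ρ), b t = 1 := by
    intro u
    rw [← b1, ← intervalIntegral.integral_Iic_add_Ioi (b := u - ρ) bi.integrableOn
      bi.integrableOn, ← intervalIntegral.integral_interval_add_Ioi (a := u - ρ) (b := u + ρ)
      bi.integrableOn bi.integrableOn, add_assoc]
  -- large u
  have hR5 : R ^ 4 ≤ (1 + R) ^ 5 := by
    calc R ^ 4 ≤ (1 + R) ^ 4 := pow_le_pow_left₀ hR0.le (by linarith) 4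
      _ ≤ (1 + R) ^ 5 := pow_le_pow_right₀ (by linarith) (by norm_num)
  have hR5' : R ^ 3 ≤ (1 + R) ^ 5 := by
    calc R ^ 3 ≤ (1 + R) ^ 3 := pow_le_pow_left₀ hR0.le (by linarith) 3
      _ ≤ (1 + R) ^ 5 := pow_le_pow_right₀ (by linarith) (by norm_num)
  have large : ∀ u, (1 + δ) * R ≤ u → |g u| ≤ K * (1 + R) ^ 5 * E / (1 + u) ^ 3 ∧
      |g' u| ≤ K * (1 + R) ^ 5 * E / (1 + u) ^ 3 := by
    intro u hu
    have hu1 : 1 ≤ u := by nlinarith
    have h1 : D ≤ u - ρ := by
      rw [hD, hρ]; linarith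
    have h2 : c * (1 + u) ≤ u - ρ := by
      have h3 : (1 + δ / 2) * R ≤ (1 + δ / 2) / (1 + δ) * u := by
        rw [div_mul_eq_mul_div, le_div_iff₀ (by linarith)]
        have : (1 + δ / 2) * ((1 + δ) * R) ≤ (1 + δ / 2) * u :=
          mul_le_mul_of_nonneg_left hu (by linarith)
        linarith
      have h4 : u - (1 + δ / 2) / (1 + δ) * u = δ / 2 / (1 + δ) * u := by
        field_simp
        ring
      have h5 : c * (1 + u) ≤ δ / 2 / (1 + δ) * u := by
        have h6 : c = δ / 2 / (1 + δ) / 2 := by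
          rw [hc]; field_simp; norm_num
        rw [h6]
        have h7 : 0 < δ / 2 / (1 + δ) := by positivity
        nlinarith
      rw [hρ]
      linarith
    have hu0 : 0 < 1 + u := by linarith
    have hcu : 0 < c * (1 + u) := by positivity
    have hup : 0 < u - ρ := lt_of_lt_of_le hD0 h1
    constructor
    · rw [abs_of_nonneg (g0 u)]
      have h3 : g u ≤ ∫ t in Ioi (u - ρ), b t := by
        rw [← intervalIntegral.integral_interval_add_Ioi (a := u - ρ) (b := u + ρ)
          bi.integrableOn bi.integrableOn]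
        have : 0 ≤ ∫ t in Ioi (u + ρ), b t := integral_nonneg fun t => (bb t).1
        simp only [hg]
        linarith
      refine h3.trans ((htail _ h1).trans ?_)
      have h4 : D ^ 4 / (3 * (u - ρ) ^ 3) ≤ D ^ 4 / (3 * (c * (1 + u)) ^ 3) := by
        apply div_le_div_of_nonneg_left (by positivity) (by positivity)
        have := pow_le_pow_left₀ hcu.le h2 3
        linarith
      calc Kb * E * (D ^ 4 / (3 * (u - ρ) ^ 3)) ≤ Kb * E * (D ^ 4 / (3 * (c * (1 + u)) ^ 3)) := by
            gcongr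
        _ = (Kb * (δ / 2) ^ 4 / (3 * c ^ 3)) * R ^ 4 * E / (1 + u) ^ 3 := by
            rw [hD]; field_simp
        _ ≤ K * (1 + R) ^ 5 * E / (1 + u) ^ 3 := by
            gcongr
            linarith
    · have h3 : ∀ v, u - ρ ≤ v → b v ≤ K * (1 + R) ^ 5 * E / (1 + u) ^ 3 := by
        intro v hv
        have hv0 : 0 < v := lt_of_lt_of_le hup hv
        have h4 := bt v (by rw [abs_of_pos hv0]; linarith)
        rw [abs_of_pos hv0] at h4
        refine h4.trans ?_
        have h5 : (D / v) ^ 4 ≤ D ^ 3 / (c * (1 + u)) ^ 3 := by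
          have h6 : D / v ≤ 1 := by
            rw [div_le_one hv0]; linarith
          have h7 : 0 ≤ D / v := by positivity
          calc (D / v) ^ 4 ≤ (D / v) ^ 3 := pow_le_pow_of_le_one h7 h6 (by norm_num)
            _ = D ^ 3 / v ^ 3 := div_pow _ _ _
            _ ≤ D ^ 3 / (c * (1 + u)) ^ 3 := by
                apply div_le_div_of_nonneg_left (by positivity) (by positivity)
                exact pow_le_pow_left₀ hcu.le (h2.trans hv) 3
        calc Kb * E * (D / v) ^ 4 ≤ Kb * E * (D ^ 3 / (c * (1 + u)) ^ 3) := by gcongr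
          _ = (Kb * (δ / 2) ^ 3 / c ^ 3) * R ^ 3 * E / (1 + u) ^ 3 := by
              rw [hD]; field_simp
          _ ≤ K * (1 + R) ^ 5 * E / (1 + u) ^ 3 := by
              gcongr
              linarith
      exact abs_sub_le' (bb _).1 (bb _).1 (h3 _ (by linarith)) (h3 _ le_rfl)
  refine ⟨g, g', ?_, fun u => g_deriv b bc ρ u, ?_, ?_, ?_, large, ?_⟩
  · have h1 := hBLI (η / 2) 0 ρ b (by positivity) hρ0.le bBL
    have h2 : (fun u => ∫ s in (0 : ℝ)..ρ, (b (u - s) + b (u + s))) = g := by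
      funext u
      exact g_eq b bc ρ u
    rw [h2] at h1
    exact h1
  · exact (bc.comp (continuous_id.add continuous_const)).sub
      (bc.comp (continuous_id.sub continuous_const))
  · intro u
    constructor
    · rw [abs_of_nonneg (g0 u)]
      have := g1 u
      linarith
    · exact (g'1 u).trans (by linarith)
  · intro u hu0 huR
    have h1 : D ≤ ρ - u := by
      rw [hD, hρ]; linarith
    have h2 : D ≤ u + ρ := by linarith
    have hR1 : (1 : ℝ) ≤ 1 + R := by linarith
    constructor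
    · have h3 := gsplit u
      have h4 := htail (u + ρ) h2
      have h5 := htail' (ρ - u) h1
      rw [neg_sub] at h5
      have h6 := hpow (u + ρ) h2
      have h7 := hpow (ρ - u) h1
      rw [abs_sub_comm, abs_of_nonneg (by linarith [g1 u])]
      have h8 : 1 - g u ≤ Kb * E * (D / 3) + Kb * E * (D / 3) := by
        have a1 : Kb * E * (D ^ 4 / (3 * (u + ρ) ^ 3)) ≤ Kb * E * (D / 3) := by gcongr
        have a2 : Kb * E * (D ^ 4 / (3 * (ρ - u) ^ 3)) ≤ Kb * E * (D / 3) := by gcongr
        linarith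
      refine h8.trans ?_
      calc Kb * E * (D / 3) + Kb * E * (D / 3) = (Kb * δ / 3) * R * E := by
            rw [hD]; ring
        _ ≤ K * (1 + R) * E := by
            gcongr
            · linarith
            · linarith
    · have h3 : ∀ v, D ≤ |v| → b v ≤ K * (1 + R) * E := by
        intro v hv
        refine (hbt1 v hv).trans ?_
        calc Kb * E = Kb * 1 * E := by ring
          _ ≤ K * (1 + R) * E := by
            gcongr
            linarith
      apply abs_sub_le' (bb _).1 (bb _).1 (h3 _ _) (h3 _ _)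
      · rw [abs_of_pos (by linarith)]; exact h2
      · rw [abs_sub_comm, abs_of_pos (by linarith)]; exact h1
  · set U : ℝ := (1 + δ) * R with hU
    have hU0 : 0 < U := by positivity
    set B1 : ℝ := K * (1 + R) ^ 5 * E with hB1
    have hB10 : 0 < B1 := by positivity
    have ge : ∀ u, g (-u) = g u := by
      intro u
      simp only [hg]
      have h1 := intervalIntegral.integral_comp_neg (fun t => b t) (a := -u - ρ) (b := -u + ρ)
      simp_rw [be] at h1
      rw [h1]
      congr 1 <;> ring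
    have ge' : ∀ u, |g' (-u)| = |g' u| := by
      intro u
      simp only [hg']
      rw [show -u + ρ = -(u - ρ) by ring, show -u - ρ = -(u + ρ) by ring, be, be, abs_sub_comm]
    refine ⟨B1 + (1 + Kb) * (1 + U) ^ 3, fun u => ?_⟩
    have hu0 : 0 < 1 + |u| := by positivity
    rcases le_or_gt U |u| with hcase | hcase
    · have h1 := large |u| hcase
      have h2 : |g u| = |g (|u|)| ∧ |g' u| = |g' (|u|)| := by
        rcases abs_cases u with ⟨h3, _⟩ | ⟨h3, _⟩
        · rw [h3]; exact ⟨rfl, rfl⟩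
        · rw [h3, ge, ge']; exact ⟨rfl, rfl⟩
      rw [h2.1, h2.2]
      have h3 : K * (1 + R) ^ 5 * E / (1 + |u|) ^ 3 ≤ (B1 + (1 + Kb) * (1 + U) ^ 3) / (1 + |u|) ^ 3 := by
        apply div_le_div_of_nonneg_right _ (by positivity)
        have : 0 ≤ (1 + Kb) * (1 + U) ^ 3 := by positivity
        linarith
      exact ⟨h1.1.trans h3, h1.2.trans h3⟩
    · have h3 : 1 + Kb ≤ (B1 + (1 + Kb) * (1 + U) ^ 3) / (1 + |u|) ^ 3 := by
        rw [le_div_iff₀ (by positivity)]
        have h4 : (1 + |u|) ^ 3 ≤ (1 + U) ^ 3 := pow_le_pow_left₀ hu0.le (by linarith) 3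
        have h5 : (1 + Kb) * (1 + |u|) ^ 3 ≤ (1 + Kb) * (1 + U) ^ 3 :=
          mul_le_mul_of_nonneg_left h4 (by linarith)
        linarith
      constructor
      · rw [abs_of_nonneg (g0 u)]
        have := g1 u
        linarith
      · have := g'1 u
        linarith

end W333.SW
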